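import Pool.Agent.K1H53.KD.Plan

/-!
Lebesgue density in `ℝ^d`: points of a set near every point close to a density point.
-/

open MeasureTheory Set Filter
open scoped Topology

namespace Pool.Agent.K1H8.KD

open Pool.Agent.K1H53.KD

variable {d : ℕ}

theorem sq_le_norm (t : Fin d → ℝ) : K1H53.KD.sq t ≤ (d : ℝ) * ‖t‖ ^ 2 := by
  unfold K1H53.KD.sq
  calc ∑ k, t k ^ 2 ≤ ∑ _k : Fin d, ‖t‖ ^ 2 := by
        apply Finset.sum_le_sum
        intro k _
        have h1 : |t k| ≤ ‖t‖ := norm_le_pi_norm t k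
        calc t k ^ 2 = |t k| ^ 2 := (sq_abs _).symm
          _ ≤ ‖t‖ ^ 2 := pow_le_pow_left₀ (abs_nonneg _) h1 2
    _ = (d : ℝ) * ‖t‖ ^ 2 := by simp

theorem norm_le_sq [NeZero d] (t : Fin d → ℝ) : ‖t‖ ^ 2 ≤ K1H53.KD.sq t := by
  have hne : Nonempty (Fin d) := ⟨⟨0, Nat.pos_of_ne_zero (NeZero.ne d)⟩⟩
  obtain ⟨k, hk⟩ : ∃ k, ‖t‖ ≤ |t k| := by
    by_contra hcon
    push Not at hcon
    have hpos : 0 < ‖t‖ := lt_of_le_of_lt (abs_nonneg _) (hcon hne.some)
    have : ‖t‖ < ‖t‖ := (pi_norm_lt_iff hpos).2 (fun k => hcon k)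
    exact lt_irrefl _ this
  calc ‖t‖ ^ 2 ≤ |t k| ^ 2 := pow_le_pow_left₀ (norm_nonneg _) hk 2
    _ = t k ^ 2 := sq_abs _
    _ ≤ K1H53.KD.sq t := Finset.single_le_sum (f := fun k => t k ^ 2) (fun _ _ => sq_nonneg _)
        (Finset.mem_univ k)

theorem t_dens [NeZero d] : S_dens d := by
  intro E
  have hd1 : (1 : ℝ) ≤ d := by exact_mod_cast Nat.pos_of_ne_zero (NeZero.ne d)
  have hae := ae_imp_of_ae_restrict (Besicovitch.ae_tendsto_measure_inter_div
    (volume : Measure (Fin d → ℝ)) E)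
  filter_upwards [hae] with h hh hE η hη
  have hlim := hh hE
  set η' : ℝ := min η 1 / d with hη'
  have hη'0 : 0 < η' := by positivity
  have hη'η : (d : ℝ) * η' ^ 2 ≤ η ^ 2 := by
    have h1 : (d : ℝ) * η' ^ 2 = min η 1 ^ 2 / d := by
      rw [hη']; field_simp
    rw [h1]
    calc min η 1 ^ 2 / d ≤ min η 1 ^ 2 := div_le_self (sq_nonneg _) hd1
      _ ≤ η ^ 2 := pow_le_pow_left₀ (by positivity) (min_le_left _ _) 2
  set δ : ℝ := (η' / (1 + η')) ^ d with hδ
  have hδ0 : 0 < δ := by positivity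
  have hδ1 : δ ≤ 1 := by
    rw [hδ]
    apply pow_le_one₀ (by positivity)
    rw [div_le_one (by positivity)]
    linarith
  have hlt : ENNReal.ofReal (1 - δ) < 1 := by
    rw [← ENNReal.ofReal_one]
    exact (ENNReal.ofReal_lt_ofReal_iff one_pos).2 (by linarith)
  have hev := hlim.eventually (lt_mem_nhds hlt)
  rw [eventually_nhdsWithin_iff, Metric.eventually_nhds_iff] at hev
  obtain ⟨ρ₀, hρ₀, hev⟩ := hev
  refine ⟨ρ₀ / (2 * (1 + η')), by positivity, fun t ht => ?_⟩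
  have hT : ‖t‖ ≤ ρ₀ / (2 * (1 + η')) := by
    have h1 : ‖t‖ ^ 2 ≤ (ρ₀ / (2 * (1 + η'))) ^ 2 := (norm_le_sq t).trans ht
    exact (abs_le_of_sq_le_sq' h1 (by positivity)).2
  rcases eq_or_lt_of_le (norm_nonneg t) with h0 | hTpos
  · refine ⟨h, hE, ?_⟩
    have ht0 : t = 0 := norm_eq_zero.1 h0.symm
    subst ht0
    simp [K1H53.KD.sq]
  by_contra hcon
  push Not at hcon
  set T := ‖t‖ with hTdef
  set R : ℝ := (1 + η') * T with hR
  have hRpos : 0 < R := by positivity
  have hRlt : R < ρ₀ := by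
    have : (1 + η') * T ≤ (1 + η') * (ρ₀ / (2 * (1 + η'))) :=
      mul_le_mul_of_nonneg_left hT (by positivity)
    have h2 : (1 + η') * (ρ₀ / (2 * (1 + η'))) = ρ₀ / 2 := by field_simp
    linarith
  have hbig := @hev R (by rw [Real.dist_eq, sub_zero, abs_of_pos hRpos]; exact hRlt) hRpos
  -- volumes
  have hdisj : E ∩ Metric.closedBall h R ⊆
      Metric.closedBall h R \ Metric.closedBall (h + t) (η' * T) := by
    rintro g ⟨hgE, hgB⟩
    refine ⟨hgB, fun hg => ?_⟩
    have h1 := hcon g hgE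
    have h2 : K1H53.KD.sq (g - (h + t)) ≤ (d : ℝ) * ‖g - (h + t)‖ ^ 2 := sq_le_norm _
    have h3 : ‖g - (h + t)‖ ≤ η' * T := by rwa [Metric.mem_closedBall, dist_eq_norm] at hg
    have h4 : ‖g - (h + t)‖ ^ 2 ≤ (η' * T) ^ 2 := pow_le_pow_left₀ (norm_nonneg _) h3 2
    have h5 : (d : ℝ) * (η' * T) ^ 2 ≤ η ^ 2 * T ^ 2 := by
      have : (d : ℝ) * (η' * T) ^ 2 = ((d : ℝ) * η' ^ 2) * T ^ 2 := by ring
      rw [this]
      exact mul_le_mul_of_nonneg_right hη'η (sq_nonneg _)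
    have h6 : η ^ 2 * T ^ 2 ≤ η ^ 2 * K1H53.KD.sq t :=
      mul_le_mul_of_nonneg_left (norm_le_sq t) (sq_nonneg _)
    have h7 : (d : ℝ) * ‖g - (h + t)‖ ^ 2 ≤ (d : ℝ) * (η' * T) ^ 2 :=
      mul_le_mul_of_nonneg_left h4 (by positivity)
    linarith
  have hsub : Metric.closedBall (h + t) (η' * T) ⊆ Metric.closedBall h R := by
    apply Metric.closedBall_subset_closedBall'
    have : dist (h + t) h = T := by rw [dist_eq_norm, add_sub_cancel_left]
    rw [this, hR]; linarith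
  have hvR : volume (Metric.closedBall h R) = ENNReal.ofReal ((2 * R) ^ d) := by
    rw [Real.volume_pi_closedBall _ hRpos.le, Fintype.card_fin]
  have hvr : volume (Metric.closedBall (h + t) (η' * T)) =
      ENNReal.ofReal ((2 * (η' * T)) ^ d) := by
    rw [Real.volume_pi_closedBall _ (by positivity), Fintype.card_fin]
  have hδeq : δ * (2 * R) ^ d = (2 * (η' * T)) ^ d := by
    rw [hδ, ← mul_pow]
    congr 1
    rw [hR]; field_simp
  have hle : volume (E ∩ Metric.closedBall h R) ≤ ENNReal.ofReal ((1 - δ) * (2 * R) ^ d) := by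
    calc volume (E ∩ Metric.closedBall h R) ≤
          volume (Metric.closedBall h R \ Metric.closedBall (h + t) (η' * T)) :=
          measure_mono hdisj
      _ = volume (Metric.closedBall h R) - volume (Metric.closedBall (h + t) (η' * T)) :=
          measure_sdiff hsub measurableSet_closedBall.nullMeasurableSet
            (by rw [hvr]; exact ENNReal.ofReal_ne_top)
      _ = ENNReal.ofReal ((2 * R) ^ d - (2 * (η' * T)) ^ d) := by
          rw [hvR, hvr, ENNReal.ofReal_sub _ (by positivity)]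
      _ = ENNReal.ofReal ((1 - δ) * (2 * R) ^ d) := by
          rw [← hδeq]; congr 1; ring
  have hge : ENNReal.ofReal ((1 - δ) * (2 * R) ^ d) < volume (E ∩ Metric.closedBall h R) := by
    have hV : volume (Metric.closedBall h R) ≠ 0 := by
      rw [hvR]
      exact (ENNReal.ofReal_pos.2 (by positivity)).ne'
    have hV' : volume (Metric.closedBall h R) ≠ ⊤ := by
      rw [hvR]; exact ENNReal.ofReal_ne_top
    have h1 := (ENNReal.lt_div_iff_mul_lt (Or.inl hV) (Or.inl hV')).1 hbig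
    rwa [hvR, ← ENNReal.ofReal_mul (by linarith)] at h1
  exact absurd hge (not_lt.2 hle)

end Pool.Agent.K1H8.KD
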